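import Pool.Agent.V11237.LP.Short
import Pool.Agent.Helper602.MK.J4a

set_option autoImplicit false

/-!
# Almost primes in the intervals `(n ^ 2, n ^ 2 + 1 + φ(n)]`: their number and the laws of the gaps

Call `m` good if it has no prime factor up to `n ^ (1 / r)`. For EVERY large `n` (however small its
totient is) the interval `(n ^ 2, n ^ 2 + 1 + φ(n)]` of the question, and every interval
`(u, u + Y]` in it with `Y ≥ n ^ θ`, contains the expected number of good integers, and the distances of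
the good integers to the `l`-th good integer before them have the Gamma distributions of a Poisson
process, up to `ε`.
-/

namespace Pool.Agent.Results.MP_36c81c_nt.AlmostPrimeGapLaws

open Finset Filter
open Pool.Agent.V11237.LP.Short

/-- **The laws of the gaps of the almost primes in `(n ^ 2, n ^ 2 + 1 + φ(n)]`.** -/
theorem result (θ : ℝ) (hθ : 0 < θ) (l₀ : ℕ) (x₀ ε : ℝ) (hε : 0 < ε) :
    ∃ r₀ : ℕ, ∀ r : ℕ, r₀ ≤ r → ∃ n₀ : ℕ, ∀ n : ℕ, n₀ ≤ n →
      (n : ℝ) ^ (1 / 3 : ℝ) ≤ (1 + Nat.totient n : ℕ) ∧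
      (∀ m : ℕ, m ≠ 0 → m ≤ n ^ 2 + 1 + Nat.totient n → Good n r m →
        m.primeFactorsList.length ≤ 3 * r) ∧
      ∀ u Y : ℕ, n ^ 2 ≤ u ∧ u + Y ≤ n ^ 2 + 1 + Nat.totient n → (n : ℝ) ^ θ ≤ Y →
      ∀ l T : ℕ, (l ≤ l₀ ∨ T * U n r ≤ x₀) →
        |(G n r l T u Y : ℝ) - Y * U n r *
          ∑ j ∈ range l, Real.exp (-(T * U n r)) * (T * U n r) ^ j / j.factorial| ≤
        ε * (Y * U n r) := by
  obtain ⟨r0, _, h0⟩ := gaps θ hθ l₀ x₀ ε hε
  refine ⟨max r0 1, ?_⟩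
  intro r hr
  obtain ⟨N0, hN0⟩ := h0 r ((le_max_left _ _).trans hr)
  refine ⟨max N0 8, ?_⟩
  intro n hn
  have hb : 8 ≤ n := (le_max_right _ _).trans hn
  have hφ : Nat.totient n ≤ n := Nat.totient_le n
  refine ⟨?_, ?_, fun u Y _ hY l T hT => hN0 n ((le_max_left _ _).trans hn) u Y hY l T hT⟩
  · have h1 := (Pool.Agent.Helper602.MK.N_J4a.h170_tot n).1
    obtain ⟨t, ht⟩ : ∃ t : ℕ, t = Nat.totient n := ⟨_, rfl⟩
    rw [← ht] at h1 ⊢
    have h2 : (n : ℝ) ≤ ((1 + t : ℕ) : ℝ) ^ (3 : ℝ) := by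
      have h3 : n ≤ (1 + t) ^ 3 := by
        calc n ≤ 2 * t ^ 2 := h1
          _ ≤ (1 + t) ^ 3 := by nlinarith [Nat.zero_le (t ^ 3)]
      rw [show (3 : ℝ) = ((3 : ℕ) : ℝ) by norm_num, Real.rpow_natCast]
      exact_mod_cast h3
    calc (n : ℝ) ^ (1 / 3 : ℝ) ≤ (((1 + t : ℕ) : ℝ) ^ (3 : ℝ)) ^ (1 / 3 : ℝ) :=
          Real.rpow_le_rpow (by positivity) h2 (by norm_num)
      _ = _ := by
          rw [← Real.rpow_mul (by positivity)]
          norm_num
  · intro m hm0 hm hg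
    refine few ((le_max_right _ _).trans hr) (by omega) hm0 (hm.trans ?_) hg
    calc n ^ 2 + 1 + Nat.totient n ≤ n ^ 2 + n ^ 2 := by nlinarith
      _ = 2 * n ^ 2 := by ring
      _ ≤ n * n ^ 2 := Nat.mul_le_mul_right _ (by omega)
      _ = n ^ 3 := by ring

end Pool.Agent.Results.MP_36c81c_nt.AlmostPrimeGapLaws
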