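import Mathlib
import Pool.Agent.V1172.PW.GapsCount
import Pool.Agent.V1172.PW.Eng2
import Pool.Agent.H343R2.Count

/-!
# The gap from a square to the next prime and Euler's function, for all integers in shrinking residue classes

Let `a(n)` be the distance from `n²` to the next prime. Let `σ ≥ 1` be such that the series of `(p_{k+1} - p_k)² p_k^{-t}` over
all `k` converges for `t > σ` (`MeanSquare σ`). By partial summation this says that the sum of `(p_{k+1} - p_k)²` over `p_k ≤ x`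
is `O(x^{σ + ε})`; it is known for `σ = 23/18` (Heath-Brown 1979), `σ = 5/4` (Peck 1996) and `σ = 1.23` (Stadlmann 2022). Let `l`
be a prime number and `s > 0`. We show:

For all `l`-adic integers `α` outside of a set of Hausdorff dimension at most `(2σ - 2) / s` and all large `T`, ALL integers
`2 ≤ n ≤ T` with `|n - α|_l ≤ T^{-s}`, that is, in the residue class of `α` modulo the least power `l^f ≥ T^s`, satisfy
`a(n) ≤ φ(n)`.

With `σ = 1.23`: for every `s > 0.46`, for almost all `α ∈ ℤ_l`, the inequality of Q1 holds for all of the about `T^{1 - s}`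
integers up to `T` in this class.
-/

set_option autoImplicit false

namespace Pool.Agent.Results.MP_36c81c_nt.IntegersInResidueClasses

/-- the primes `p 0 = 2, p 1 = 3, …` -/
noncomputable def p (k : ℕ) : ℕ := Nat.nth Nat.Prime k

/-- the mean square of the gaps up to `x` is `O(x^{σ - 1 + ε})`: the series of `(p_{k+1} - p_k)² p_k^{-t}` converges for
`t > σ` -/
def MeanSquare (σ : ℝ) : Prop := ∀ t : ℝ, σ < t →
  Summable fun k : ℕ => ((p (k + 1) - p k : ℕ) : ℝ) ^ 2 * (p k : ℝ) ^ (-t)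

/-- `a(n)`, the distance from `n²` to the next prime -/
noncomputable def a (n : ℕ) : ℕ := sInf {q : ℕ | q.Prime ∧ n ^ 2 < q} - n ^ 2

/-- for all large `T`: `a(n) ≤ φ(n)` for ALL `2 ≤ n ≤ T` with `|n - α|_l ≤ T^{-s}` -/
def Good (l : ℕ) [Fact l.Prime] (s : ℝ) (α : ℤ_[l]) : Prop := ∃ T₀ : ℝ, ∀ T : ℝ, T₀ ≤ T → ∀ n : ℕ, 2 ≤ n →
  (n : ℝ) ≤ T → ‖(n : ℤ_[l]) - α‖ ≤ T ^ (-s) → a n ≤ Nat.totient n

theorem a_lt {n w : ℕ} (h : ∃ q : ℕ, q.Prime ∧ n ^ 2 < q ∧ q < n ^ 2 + w) : a n ≤ w := by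
  obtain ⟨q, h1, h2, h3⟩ := h
  have h4 : sInf {q : ℕ | q.Prime ∧ n ^ 2 < q} ≤ q := Nat.sInf_le ⟨h1, h2⟩
  unfold a
  omega

theorem step {σ : ℝ} (hσ1 : 1 ≤ σ) (hMS : MeanSquare σ) (l : ℕ) [Fact l.Prime] {s : ℝ} (hs : 0 < s) {η : ℝ}
    (hη : 0 < η) : dimH {α : ℤ_[l] | ¬ Good l s α} ≤ ENNReal.ofReal ((2 * σ - 2 + 2 * η) / s) := by
  obtain ⟨c, hc, hphi⟩ := H343.phi_bound η hη
  set E : Set ℕ := {n | 2 ≤ n ∧ ∀ r : ℕ, r.Prime → ¬ (n ^ 2 < r ∧ r < n ^ 2 + Nat.totient n)} with hE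
  obtain ⟨Z, h1, h3⟩ := Pool.Agent.V1172.PW.objs l (P := ℕ) (fun n => (n : ℤ)) (ι := Unit) (fun _ => E)
    (s := 2 * σ - 2 + 2 * η) (by linarith)
    (fun _ ε hε => by
      obtain ⟨C, hC⟩ := Pool.Agent.V1172.PW.gaps_count (q := 1) (B := Set.univ) (σ := σ) (γ := 1 - η) (c := c) hc
        (fun t ht => by
          have := hMS t ht
          simpa [Pool.Agent.H274.Gaps.gap, Pool.Agent.H274.Gaps.p, p] using this)
        (f := fun n => n ^ 2) (w := Nat.totient) (E := E) (by linarith) (by push_cast; linarith)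
        (fun n hn => by have := hn.1; nlinarith)
        (fun n _ => by nlinarith) (fun n hn => hphi n (by have := hn.1; omega)) (fun n hn => hn.2)
        (fun n hn n' _ h => by
          have h4 := Nat.totient_le n
          nlinarith) (fun n _ => Set.mem_univ _) hε
      have e1 : 2 * σ - (((1 : ℕ) : ℝ) + 1) * (1 - η) + ε = 2 * σ - 2 + 2 * η + ε := by
        push_cast
        ring
      rw [e1] at hC
      refine ⟨C, fun X hX => ?_⟩
      have e : {t : ℕ | t ∈ E ∧ |(((t : ℤ)) : ℝ)| ≤ X} = {n | n ∈ E ∧ (n : ℝ) ≤ X} := by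
        ext v
        refine and_congr_right fun _ => ?_
        rw [Int.cast_natCast, Nat.abs_cast]
      rw [e]
      exact hC X hX) hs
  refine (dimH_mono ?_).trans h1
  intro α hbad
  by_contra hcon
  obtain ⟨T₀, hT⟩ := h3 α hcon ()
  refine hbad ⟨T₀, fun T hT1 n hn hnT hna => a_lt ?_⟩
  by_contra hno
  push Not at hno
  refine hT T hT1 n ?_ ?_ ⟨hn, fun r hr h => absurd h.2 (not_lt.2 (hno r hr h.1))⟩
  · rw [Int.cast_natCast, Nat.abs_cast]
    exact hnT
  · rw [Int.cast_natCast]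
    exact hna

/-- **Theorem.** Let `σ ≥ 1` with `MeanSquare σ`, `l` a prime and `s > 0`. For all `α ∈ ℤ_l` outside of a set of dimension at
most `(2σ - 2) / s` and all large `T` the inequality `a(n) ≤ φ(n) < 1 + φ(n)` holds for ALL `2 ≤ n ≤ T` with
`|n - α|_l ≤ T^{-s}`. -/
theorem result (σ : ℝ) (hσ1 : 1 ≤ σ) (hMS : MeanSquare σ) (l : ℕ) [Fact l.Prime] (s : ℝ) (hs : 0 < s) :
    dimH {α : ℤ_[l] | ¬ Good l s α} ≤ ENNReal.ofReal ((2 * σ - 2) / s) := by
  apply ENNReal.le_of_forall_pos_le_add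
  intro ε hε _
  have hε' : (0 : ℝ) < ε := by exact_mod_cast hε
  refine (step hσ1 hMS l hs (η := ε * s / 2) (by positivity)).trans (le_of_eq ?_)
  have h2 : (2 * σ - 2 + 2 * (ε * s / 2)) / s = (2 * σ - 2) / s + ε := by
    field_simp
  rw [h2, ENNReal.ofReal_add (div_nonneg (by linarith) hs.le) hε'.le, ENNReal.ofReal_coe_nnreal]

end Pool.Agent.Results.MP_36c81c_nt.IntegersInResidueClasses
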