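import Mathlib
import Pool.Agent.H274.Gaps
import Pool.Agent.H343R2.Count

/-!
# The gap from a square to the next prime and Euler's function, for all integers in windows

Let `a(n)` be the distance from `n²` to the next prime. Let `1 ≤ u_0, u_1, …` be reals with `∑ u_m^{-t} < ∞` for all `t > τ`
(`τ = 0` for geometric sequences), `θ < 1`, and let `3/2 > σ ≥ 1` be such that the series of `(p_{k+1} - p_k)² p_k^{-s}` over all `k`
converges for `s > σ` (`MeanSquare σ`). By partial summation this says that the sum of `(p_{k+1} - p_k)²` over `p_k ≤ x` is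
`O(x^{σ + ε})`; it is known for `σ = 23/18` (Heath-Brown 1979), `σ = 5/4` (Peck 1996) and `σ = 1.23` (Stadlmann 2022). We show:

The set of the `α > 0` such that `a(n) ≤ 1 + φ(n)` fails for some integers `n` with `|n - α u_m| ≤ u_m^θ`, for infinitely many
`m`, has Hausdorff dimension at most `(2σ - 2 + τ) / (1 - θ)`. If `θ + τ < 3 - 2σ` then for almost all `α > 0` the inequality
`a(n) ≤ 1 + φ(n)` (even `a(n) ≤ φ(n)`) holds for ALL these `n`, for all large `m`.

With `σ = 1.23` and `u_m = b^m` this gives all integers in windows of length `b^{θ m}`, for every `θ < 0.54`.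

The proof: if `(n², n² + φ(n))` has no primes then it is in a gap, and `φ(n) ≥ c n^{1 - η}`; the intervals are disjoint, so that
the sum of `φ(n)²` over these `n ≤ N` is `O(N^{2σ + ε})`, and there are `O(N^{2σ - 2 + 2η + ε})` of them. The `α` for which these
are in infinitely many windows are covered by `Pool.Agent.Y854.GM.windows`.
-/

set_option autoImplicit false

namespace Pool.Agent.Results.MP_36c81c_nt.TotientInWindows

open Filter MeasureTheory

/-- the primes `p 0 = 2, p 1 = 3, …` -/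
noncomputable def p (k : ℕ) : ℕ := Nat.nth Nat.Prime k

/-- the mean square of the gaps up to `x` is `O(x^{σ - 1 + ε})`: the series of `(p_{k+1} - p_k)² p_k^{-s}` converges for
`s > σ` -/
def MeanSquare (σ : ℝ) : Prop := ∀ s : ℝ, σ < s →
  Summable fun k : ℕ => ((p (k + 1) - p k : ℕ) : ℝ) ^ 2 * (p k : ℝ) ^ (-s)

/-- `a(n)`, the distance from `n²` to the next prime -/
noncomputable def a (n : ℕ) : ℕ := sInf {q : ℕ | q.Prime ∧ n ^ 2 < q} - n ^ 2

/-- `a(n) ≤ φ(n)` for all `n ≥ 2` in the windows around `α u_m`, for all large `m` -/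
def Good (u : ℕ → ℝ) (θ α : ℝ) : Prop := ∃ m₀ : ℕ, ∀ m : ℕ, m₀ ≤ m → ∀ n : ℕ, 2 ≤ n → |(n : ℝ) - α * u m| ≤ u m ^ θ →
  a n ≤ Nat.totient n

theorem a_lt {n w : ℕ} (h : ∃ q : ℕ, q.Prime ∧ n ^ 2 < q ∧ q < n ^ 2 + w) : a n ≤ w := by
  obtain ⟨q, h1, h2, h3⟩ := h
  have h4 : sInf {q : ℕ | q.Prime ∧ n ^ 2 < q} ≤ q := Nat.sInf_le ⟨h1, h2⟩
  unfold a
  omega

theorem step {σ : ℝ} (hσ1 : 1 ≤ σ) (hMS : MeanSquare σ) {u : ℕ → ℝ} {τ θ : ℝ} (hu : ∀ m, 1 ≤ u m) (hτ : 0 ≤ τ)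
    (hgrow : ∀ t : ℝ, τ < t → Summable fun m : ℕ => u m ^ (-t)) (hθ : θ < 1) {η : ℝ} (hη : 0 < η) :
    dimH {α : ℝ | 0 < α ∧ ¬ Good u θ α} ≤ ENNReal.ofReal ((2 * σ - 2 + 2 * η + τ) / (1 - θ)) := by
  obtain ⟨c, hc, hphi⟩ := H343.phi_bound η hη
  set E : Set ℕ := {n | 2 ≤ n ∧ ∀ r : ℕ, r.Prime → ¬ (n ^ 2 < r ∧ r < n ^ 2 + Nat.totient n)} with hE
  obtain ⟨Z, h1, h3⟩ := Pool.Agent.H274.Gaps.windows (q := 1) (B := Set.univ) (σ := σ) (γ := 1 - η) (c := c) hc
    (fun s hs => by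
      have := hMS s hs
      simpa [Pool.Agent.H274.Gaps.gap, Pool.Agent.H274.Gaps.p, p] using this)
    (f := fun n => n ^ 2) (w := Nat.totient) (E := E) (by linarith) (by push_cast; linarith)
    (fun n hn => by have := hn.1; nlinarith)
    (fun n _ => by nlinarith) (fun n hn => hphi n (by have := hn.1; omega)) (fun n hn => hn.2)
    (fun n hn n' _ h => by
      have h4 := Nat.totient_le n
      nlinarith) (fun n _ => Set.mem_univ _) hu hτ hgrow hθ
  have h4 : {α : ℝ | 0 < α ∧ ¬ Good u θ α} ⊆ Z := by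
    rintro α ⟨hα, hbad⟩
    by_contra hcon
    obtain ⟨m₀, hm₀⟩ := h3 α hα hcon
    refine hbad ⟨m₀, fun m hm n hn hnm => a_lt ?_⟩
    by_contra hno
    push Not at hno
    exact absurd hnm (not_le.2 (hm₀ m hm n ⟨hn, fun r hr h => absurd h.2 (not_lt.2 (hno r hr h.1))⟩))
  refine (dimH_mono h4).trans (h1.trans (ENNReal.ofReal_le_ofReal ?_))
  refine div_le_div_of_nonneg_right ?_ (by linarith)
  push_cast
  linarith

/-- **Theorem.** Let `σ ≥ 1` with `MeanSquare σ`, `1 ≤ u_m`, `∑_m u_m^{-t} < ∞` for all `t > τ`, `θ < 1`. The inequality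
`a(n) ≤ φ(n) < 1 + φ(n)` holds for all `n` in the windows around `α u_m`, for all large `m`: for all `α > 0` outside of a set of
dimension at most `(2σ - 2 + τ) / (1 - θ)`, and for almost all `α > 0` if `θ + τ < 3 - 2σ`. -/
theorem result (σ : ℝ) (hσ1 : 1 ≤ σ) (hMS : MeanSquare σ) (u : ℕ → ℝ) (τ θ : ℝ) (hu : ∀ m, 1 ≤ u m) (hτ : 0 ≤ τ)
    (hgrow : ∀ t : ℝ, τ < t → Summable fun m : ℕ => u m ^ (-t)) (hθ : θ < 1) :
    dimH {α : ℝ | 0 < α ∧ ¬ Good u θ α} ≤ ENNReal.ofReal ((2 * σ - 2 + τ) / (1 - θ)) ∧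
    (θ + τ < 3 - 2 * σ → ∀ᵐ α : ℝ, 0 < α → Good u θ α) := by
  have h1θ : 0 < 1 - θ := by linarith
  have h1 : dimH {α : ℝ | 0 < α ∧ ¬ Good u θ α} ≤ ENNReal.ofReal ((2 * σ - 2 + τ) / (1 - θ)) := by
    apply ENNReal.le_of_forall_pos_le_add
    intro ε hε _
    have hε' : (0 : ℝ) < ε := by exact_mod_cast hε
    refine (step hσ1 hMS hu hτ hgrow hθ (η := ε * (1 - θ) / 2) (by positivity)).trans (le_of_eq ?_)
    have h2 : (2 * σ - 2 + 2 * (ε * (1 - θ) / 2) + τ) / (1 - θ) = (2 * σ - 2 + τ) / (1 - θ) + ε := by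
      field_simp
      ring
    rw [h2, ENNReal.ofReal_add (div_nonneg (by linarith) h1θ.le) hε'.le, ENNReal.ofReal_coe_nnreal]
  refine ⟨h1, fun hθτ => ?_⟩
  have hnull : volume {α : ℝ | 0 < α ∧ ¬ Good u θ α} = 0 := by
    rw [← hausdorffMeasure_real]
    refine hausdorffMeasure_of_dimH_lt (d := 1) (h1.trans_lt ?_)
    have g1 : (2 * σ - 2 + τ) / (1 - θ) < 1 := by
      rw [div_lt_one h1θ]
      linarith
    simpa using (ENNReal.ofReal_lt_one).2 g1
  filter_upwards [compl_mem_ae_iff.2 hnull] with α hα hα0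
  by_contra hcon
  exact hα ⟨hα0, hcon⟩

end Pool.Agent.Results.MP_36c81c_nt.TotientInWindows
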